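import Pool.Agent.Y745.LD.DefsA
import Pool.Agent.Y41.SW.FM

set_option autoImplicit false

/-!
LD project (helper745), job LD-VMR (helper447): mean squares of Dirichlet polynomials supported on integers without
small prime factors, with the weight.
-/

namespace Pool.Agent.Y447.LD

open Filter Topology MeasureTheory Complex
open Pool.Agent.Y745.SW Pool.Agent.Y745.LD Pool.Agent.Y41.SW

noncomputable section

/-- the mean value theorem for one polynomial -/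
theorem mv_sq (hMVB : P_MVB) (X : ℕ) (T1 T2 : ℝ) (hT : T1 ≤ T2) (g : ℕ → ℂ) :
    |(∫ t in T1..T2, ‖∑ n ∈ Finset.Icc 1 X, g n * (n : ℂ) ^ (-(t : ℂ) * I)‖ ^ 2) -
      (T2 - T1) * ∑ n ∈ Finset.Icc 1 X, ‖g n‖ ^ 2| ≤
      8 * X * (1 + Real.log X) * ∑ n ∈ Finset.Icc 1 X, ‖g n‖ ^ 2 := by
  have h := hMVB X T1 T2 hT g g
  have hz : ∀ z : ℂ, z * (starRingEnd ℂ) z = ((‖z‖ ^ 2 : ℝ) : ℂ) := by
    intro z
    rw [Complex.mul_conj, Complex.normSq_eq_norm_sq]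
  have e1 : (∫ t in T1..T2, (∑ n ∈ Finset.Icc 1 X, g n * (n : ℂ) ^ (-(t : ℂ) * I)) *
      (starRingEnd ℂ) (∑ n ∈ Finset.Icc 1 X, g n * (n : ℂ) ^ (-(t : ℂ) * I))) =
      ((∫ t in T1..T2, ‖∑ n ∈ Finset.Icc 1 X, g n * (n : ℂ) ^ (-(t : ℂ) * I)‖ ^ 2 : ℝ) : ℂ) := by
    rw [← intervalIntegral.integral_ofReal]
    exact intervalIntegral.integral_congr fun t _ => hz _
  have e2 : ∑ n ∈ Finset.Icc 1 X, g n * (starRingEnd ℂ) (g n) =
      ((∑ n ∈ Finset.Icc 1 X, ‖g n‖ ^ 2 : ℝ) : ℂ) := by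
    rw [Complex.ofReal_sum]
    exact Finset.sum_congr rfl fun n _ => hz _
  have hnn : 0 ≤ ∑ n ∈ Finset.Icc 1 X, ‖g n‖ ^ 2 := Finset.sum_nonneg fun n _ => by positivity
  rw [e1, e2, Real.mul_self_sqrt hnn, ← Complex.ofReal_mul, ← Complex.ofReal_sub,
    Complex.norm_real, Real.norm_eq_abs] at h
  exact h

/-- the coefficients of the truncated exponential series -/
def qc (κ y : ℝ) (K n : ℕ) : ℝ :=
  ∑ j ∈ Finset.range (K + 1), κ ^ j / (j.factorial : ℝ) * ((pA y) ^ j) n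

theorem tex_eq (κ y t : ℝ) (K : ℕ) (hN : 1 ≤ ⌊y⌋₊) :
    tex K ((κ : ℂ) * Py y t) = ∑ n ∈ Finset.Icc 1 (⌊y⌋₊ ^ K),
      ((qc κ y K n : ℝ) : ℂ) * (n : ℂ) ^ (-(t : ℂ) * I) := by
  unfold tex qc
  have h1 : ∀ j ∈ Finset.range (K + 1), ((κ : ℂ) * Py y t) ^ j / (j.factorial : ℂ) =
      ∑ n ∈ Finset.Icc 1 (⌊y⌋₊ ^ K), (((κ ^ j / (j.factorial : ℝ) * ((pA y) ^ j) n : ℝ)) : ℂ) *
        (n : ℂ) ^ (-(t : ℂ) * I) := by
    intro j hj
    have hj' : j ≤ K := Nat.lt_succ_iff.1 (Finset.mem_range.1 hj)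
    rw [mul_pow, Py_eq, DP_pow _ _ (pA_supp y),
      DP_extend _ _ _ (Nat.pow_le_pow_right hN hj') (supp_pow _ _ (pA_supp y) j)]
    unfold DP
    rw [mul_div_right_comm, Finset.mul_sum]
    refine Finset.sum_congr rfl fun n _ => ?_
    push_cast
    ring
  rw [Finset.sum_congr rfl h1, Finset.sum_comm]
  refine Finset.sum_congr rfl fun n _ => ?_
  rw [Complex.ofReal_sum, Finset.sum_mul]

theorem smooth_pow (y : ℝ) (j n : ℕ) (h : ((pA y) ^ j) n ≠ 0) :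
    ∀ p : ℕ, p.Prime → p ∣ n → (p : ℝ) ≤ y := by
  induction j generalizing n with
  | zero =>
    intro p hp hpn
    rw [pow_zero] at h
    have h1 : n = 1 := by
      by_contra h2
      exact h (ArithmeticFunction.one_apply_ne h2)
    rw [h1] at hpn
    exact absurd (Nat.dvd_one.1 hpn) hp.one_lt.ne'
  | succ j ih =>
    intro p hp hpn
    rw [pow_succ, ArithmeticFunction.mul_apply] at h
    obtain ⟨x, hx, hx2⟩ := Finset.exists_ne_zero_of_sum_ne_zero h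
    rw [Nat.mem_divisorsAntidiagonal] at hx
    have h1 := left_ne_zero_of_mul hx2
    have h2 := right_ne_zero_of_mul hx2
    have h3 : x.2.Prime ∧ (x.2 : ℝ) ≤ y := by
      by_contra h4
      exact h2 (if_neg h4)
    rw [← hx.1] at hpn
    rcases hp.dvd_mul.1 hpn with h4 | h4
    · exact ih _ h1 p hp h4
    · rw [(Nat.prime_dvd_prime_iff_eq hp h3.1).1 h4]
      exact h3.2

theorem smooth_qc (κ y : ℝ) (K n : ℕ) (h : qc κ y K n ≠ 0) :
    ∀ p : ℕ, p.Prime → p ∣ n → (p : ℝ) ≤ y := by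
  obtain ⟨j, _, hj⟩ := Finset.exists_ne_zero_of_sum_ne_zero h
  exact smooth_pow y j n (right_ne_zero_of_mul hj)

/-- unique factorisation in a smooth and a rough part -/
theorem smooth_rough {y : ℝ} {u v u' v' : ℕ} (hu0 : u ≠ 0) (hv0 : v ≠ 0)
    (hu : ∀ p : ℕ, p.Prime → p ∣ u → (p : ℝ) ≤ y) (hu' : ∀ p : ℕ, p.Prime → p ∣ u' → (p : ℝ) ≤ y)
    (hv : ∀ p : ℕ, p.Prime → p ∣ v → y < p) (hv' : ∀ p : ℕ, p.Prime → p ∣ v' → y < p)
    (h : u * v = u' * v') : u = u' ∧ v = v' := by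
  have c1 : Nat.Coprime u v' := by
    rw [Nat.coprime_iff_gcd_eq_one]
    by_contra h1
    obtain ⟨p, hp, hpd⟩ := Nat.exists_prime_and_dvd h1
    have h2 := hu p hp (hpd.trans (Nat.gcd_dvd_left _ _))
    have h3 := hv' p hp (hpd.trans (Nat.gcd_dvd_right _ _))
    linarith
  have c2 : Nat.Coprime u' v := by
    rw [Nat.coprime_iff_gcd_eq_one]
    by_contra h1
    obtain ⟨p, hp, hpd⟩ := Nat.exists_prime_and_dvd h1
    have h2 := hu' p hp (hpd.trans (Nat.gcd_dvd_left _ _))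
    have h3 := hv p hp (hpd.trans (Nat.gcd_dvd_right _ _))
    linarith
  have d1 : u ∣ u' := c1.dvd_of_dvd_mul_right (h ▸ Dvd.intro _ rfl)
  have d2 : u' ∣ u := c2.dvd_of_dvd_mul_right (h.symm ▸ Dvd.intro _ rfl)
  have e := Nat.dvd_antisymm d1 d2
  refine ⟨e, ?_⟩
  rw [← e] at h
  exact Nat.eq_of_mul_eq_mul_left (Nat.pos_of_ne_zero hu0) h

/-- the coefficients of a product -/
def gc (q b : ℕ → ℂ) (M X m : ℕ) : ℂ :=
  ∑ x ∈ (Finset.Icc 1 M ×ˢ Finset.Icc 1 X).filter (fun x => x.1 * x.2 = m), q x.1 * b x.2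

theorem prod_eq (q b : ℕ → ℂ) (M X : ℕ) (t : ℝ) :
    (∑ n ∈ Finset.Icc 1 M, q n * (n : ℂ) ^ (-(t : ℂ) * I)) *
      (∑ n ∈ Finset.Icc 1 X, b n * (n : ℂ) ^ (-(t : ℂ) * I)) =
      ∑ m ∈ Finset.Icc 1 (M * X), gc q b M X m * (m : ℂ) ^ (-(t : ℂ) * I) := by
  rw [Finset.sum_mul_sum, ← Finset.sum_product']
  have hmap : ∀ x ∈ Finset.Icc 1 M ×ˢ Finset.Icc 1 X, x.1 * x.2 ∈ Finset.Icc 1 (M * X) := by
    intro x hx
    simp only [Finset.mem_product, Finset.mem_Icc] at hx ⊢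
    exact ⟨Nat.one_le_iff_ne_zero.mpr (by
      have h1 := hx.1.1; have h2 := hx.2.1
      positivity), Nat.mul_le_mul hx.1.2 hx.2.2⟩
  rw [← Finset.sum_fiberwise_of_maps_to hmap]
  refine Finset.sum_congr rfl fun m _ => ?_
  unfold gc
  rw [Finset.sum_mul]
  refine Finset.sum_congr rfl fun x hx => ?_
  rw [← (Finset.mem_filter.1 hx).2]
  push_cast
  rw [Complex.natCast_mul_natCast_cpow]
  ring

theorem gc_sq (q b : ℕ → ℂ) (M X : ℕ)
    (hinj : ∀ x ∈ Finset.Icc 1 M ×ˢ Finset.Icc 1 X, ∀ x' ∈ Finset.Icc 1 M ×ˢ Finset.Icc 1 X,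
      q x.1 * b x.2 ≠ 0 → q x'.1 * b x'.2 ≠ 0 → x.1 * x.2 = x'.1 * x'.2 → x = x') :
    ∑ m ∈ Finset.Icc 1 (M * X), ‖gc q b M X m‖ ^ 2 =
      (∑ n ∈ Finset.Icc 1 M, ‖q n‖ ^ 2) * ∑ n ∈ Finset.Icc 1 X, ‖b n‖ ^ 2 := by
  rw [Finset.sum_mul_sum, ← Finset.sum_product']
  have hmap : ∀ x ∈ Finset.Icc 1 M ×ˢ Finset.Icc 1 X, x.1 * x.2 ∈ Finset.Icc 1 (M * X) := by
    intro x hx
    simp only [Finset.mem_product, Finset.mem_Icc] at hx ⊢
    exact ⟨Nat.one_le_iff_ne_zero.mpr (by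
      have h1 := hx.1.1; have h2 := hx.2.1
      positivity), Nat.mul_le_mul hx.1.2 hx.2.2⟩
  rw [← Finset.sum_fiberwise_of_maps_to hmap]
  refine Finset.sum_congr rfl fun m _ => ?_
  unfold gc
  by_cases h : ∃ x ∈ (Finset.Icc 1 M ×ˢ Finset.Icc 1 X).filter (fun x => x.1 * x.2 = m),
      q x.1 * b x.2 ≠ 0
  · obtain ⟨x, hx, hx0⟩ := h
    have hx' := Finset.mem_filter.1 hx
    have key : ∀ z ∈ (Finset.Icc 1 M ×ˢ Finset.Icc 1 X).filter (fun x => x.1 * x.2 = m),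
        z ≠ x → q z.1 * b z.2 = 0 := by
      intro z hz hzx
      by_contra hz0
      have hz' := Finset.mem_filter.1 hz
      exact hzx (hinj z hz'.1 x hx'.1 hz0 hx0 (by rw [hz'.2, hx'.2]))
    rw [Finset.sum_eq_single_of_mem x hx key, norm_mul, mul_pow,
      Finset.sum_eq_single_of_mem x hx]
    intro z hz hzx
    have := congrArg (fun w : ℂ => ‖w‖ ^ 2) (key z hz hzx)
    simp only [norm_mul, mul_pow, norm_zero] at this
    rw [this]
    norm_num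
  · push Not at h
    rw [Finset.sum_eq_zero h, norm_zero]
    symm
    rw [Finset.sum_eq_zero]
    · norm_num
    · intro z hz
      have := congrArg (fun w : ℂ => ‖w‖ ^ 2) (h z hz)
      simp only [norm_mul, mul_pow, norm_zero] at this
      rw [this]
      norm_num

/-- the length of the polynomial of the weight -/
theorem len_small (c A η : ℝ) (hc : c < 1) (hη : 0 < η) : ∀ᶠ T : ℝ in atTop,
    1 ≤ ⌊yc c T⌋₊ ∧ (((⌊yc c T⌋₊ ^ KA A T : ℕ)) : ℝ) ≤ T ^ η := by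
  have h1 : Tendsto (fun L : ℝ => |A| * (Real.log L / L ^ (1 - c)) + 1 * L ^ (-(1 - c))) atTop
      (𝓝 (|A| * 0 + 1 * 0)) := by
    refine Tendsto.add (Tendsto.const_mul _ ?_) (Tendsto.const_mul _ ?_)
    · exact (isLittleO_log_rpow_atTop (by linarith : (0:ℝ) < 1 - c)).tendsto_div_nhds_zero
    · exact tendsto_rpow_neg_atTop (by linarith)
  rw [mul_zero, mul_zero, add_zero] at h1
  have h2 := (h1.eventually (gt_mem_nhds hη)).and (eventually_ge_atTop (1 : ℝ))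
  have h3 := Real.tendsto_log_atTop.eventually h2
  filter_upwards [h3, eventually_gt_atTop (1 : ℝ)] with T hT hT1
  obtain ⟨hT, hL⟩ := hT
  have hL0 : 0 < Real.log T := by linarith
  have hy1 : 1 ≤ yc c T := by
    unfold yc
    exact Real.one_le_exp (by positivity)
  refine ⟨Nat.le_floor (by simpa using hy1), ?_⟩
  have hK : (KA A T : ℝ) ≤ |A| * Real.log (Real.log T) + 1 := by
    unfold KA LL
    have hLL : 0 ≤ Real.log (Real.log T) := Real.log_nonneg hL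
    have h5 : 0 ≤ |A| * Real.log (Real.log T) := by positivity
    have h6 : ⌈A * Real.log (Real.log T)⌉₊ ≤ ⌈|A| * Real.log (Real.log T)⌉₊ :=
      Nat.ceil_mono (mul_le_mul_of_nonneg_right (le_abs_self A) hLL)
    have h7 : ((⌈A * Real.log (Real.log T)⌉₊ : ℕ) : ℝ) ≤
        ((⌈|A| * Real.log (Real.log T)⌉₊ : ℕ) : ℝ) := by exact_mod_cast h6
    exact h7.trans (Nat.ceil_lt_add_one h5).le
  have h8 : (((⌊yc c T⌋₊ ^ KA A T : ℕ)) : ℝ) ≤ yc c T ^ (KA A T) := by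
    push_cast
    exact pow_le_pow_left₀ (Nat.cast_nonneg _) (Nat.floor_le (by linarith)) _
  refine h8.trans ?_
  unfold yc
  rw [← Real.exp_nat_mul, Real.rpow_def_of_pos (by linarith : (0:ℝ) < T)]
  apply Real.exp_le_exp.mpr
  have hLc : 0 < Real.log T ^ c := Real.rpow_pos_of_pos hL0 c
  have e1 : Real.log T ^ (1 - c) * Real.log T ^ c = Real.log T := by
    rw [← Real.rpow_add hL0]
    norm_num
  have hL1 : 0 < Real.log T ^ (1 - c) := Real.rpow_pos_of_pos hL0 _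
  have h9 : (|A| * Real.log (Real.log T) + 1) ≤ η * Real.log T ^ (1 - c) := by
    have h10 := hT.le
    rw [Real.rpow_neg hL0.le] at h10
    have h11 := mul_le_mul_of_nonneg_right h10 hL1.le
    have e2 : (|A| * (Real.log (Real.log T) / Real.log T ^ (1 - c)) +
        1 * (Real.log T ^ (1 - c))⁻¹) * Real.log T ^ (1 - c) =
        |A| * Real.log (Real.log T) + 1 := by
      field_simp
    rwa [e2] at h11
  calc (KA A T : ℝ) * Real.log T ^ c ≤ (|A| * Real.log (Real.log T) + 1) * Real.log T ^ c :=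
        mul_le_mul_of_nonneg_right hK hLc.le
    _ ≤ (η * Real.log T ^ (1 - c)) * Real.log T ^ c := mul_le_mul_of_nonneg_right h9 hLc.le
    _ = Real.log T * η := by rw [mul_assoc, e1, mul_comm]

/-- the error terms are small -/
theorem err_small (δ η : ℝ) (hδ : 0 < δ) (hη : 0 < η) : ∀ᶠ T : ℝ in atTop,
    8 * (T ^ (1 - η) * (1 + Real.log T)) * (2 + δ) ≤ δ * T := by
  have h1 : Tendsto (fun T : ℝ => T ^ (-η) + Real.log T / T ^ η) atTop (𝓝 (0 + 0)) :=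
    (tendsto_rpow_neg_atTop hη).add (isLittleO_log_rpow_atTop hη).tendsto_div_nhds_zero
  rw [add_zero] at h1
  have hpos : 0 < δ / (8 * (2 + δ)) := by positivity
  filter_upwards [h1.eventually (gt_mem_nhds hpos), eventually_gt_atTop (0 : ℝ)] with T hT hT0
  have e1 : T ^ (1 - η) = T * T ^ (-η) := by
    rw [sub_eq_add_neg, Real.rpow_add hT0, Real.rpow_one]
  have e2 : T ^ (-η) + Real.log T / T ^ η = T ^ (-η) * (1 + Real.log T) := by
    rw [Real.rpow_neg hT0.le]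
    field_simp
  rw [e2, lt_div_iff₀ (by positivity)] at hT
  rw [e1]
  nlinarith

/-- JOB LD-VMR -/
theorem t_VMR (hMVB : P_MVB) : P_VMR := by
  intro κ c A ε δ hc0 hc1 hε hδ
  obtain ⟨ε', hε', h1', h2'⟩ : ∃ ε' : ℝ, 0 < ε' ∧ ε' ≤ 1 ∧ ε' ≤ ε :=
    ⟨min ε 1, lt_min hε one_pos, min_le_right _ _, min_le_left _ _⟩
  filter_upwards [len_small c A (ε' / 4) hc1 (by linarith),
    err_small δ (3 * ε' / 4) hδ (by linarith), eventually_gt_atTop (1 : ℝ)] with T hM hE hT1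
  obtain ⟨hN, hM⟩ := hM
  intro X hX b hb
  have hT0 : 0 < T := by linarith
  obtain ⟨M, hMdef⟩ : ∃ M : ℕ, M = ⌊yc c T⌋₊ ^ KA A T := ⟨_, rfl⟩
  rw [← hMdef] at hM
  obtain ⟨q, hq⟩ : ∃ q : ℕ → ℂ, ∀ n, q n = ((qc κ (yc c T) (KA A T) n : ℝ) : ℂ) :=
    ⟨_, fun _ => rfl⟩
  have hQ : ∀ t : ℝ, Qk κ c A T t = ∑ n ∈ Finset.Icc 1 M, q n * (n : ℂ) ^ (-(t : ℂ) * I) := by
    intro t
    unfold Qk Pc
    rw [tex_eq κ (yc c T) t (KA A T) hN, hMdef]
    exact Finset.sum_congr rfl fun n _ => by rw [hq]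
  have hinj : ∀ x ∈ Finset.Icc 1 M ×ˢ Finset.Icc 1 X, ∀ x' ∈ Finset.Icc 1 M ×ˢ Finset.Icc 1 X,
      q x.1 * b x.2 ≠ 0 → q x'.1 * b x'.2 ≠ 0 → x.1 * x.2 = x'.1 * x'.2 → x = x' := by
    intro x hx x' hx' h1 h2 h3
    simp only [Finset.mem_product, Finset.mem_Icc] at hx hx'
    have s1 : ∀ p : ℕ, p.Prime → p ∣ x.1 → (p : ℝ) ≤ yc c T := by
      refine smooth_qc κ (yc c T) (KA A T) x.1 fun h4 => left_ne_zero_of_mul h1 ?_
      rw [hq, h4, Complex.ofReal_zero]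
    have s2 : ∀ p : ℕ, p.Prime → p ∣ x'.1 → (p : ℝ) ≤ yc c T := by
      refine smooth_qc κ (yc c T) (KA A T) x'.1 fun h4 => left_ne_zero_of_mul h2 ?_
      rw [hq, h4, Complex.ofReal_zero]
    obtain ⟨e1, e2⟩ := smooth_rough (by omega) (by omega) s1 s2
      (fun p hp hpn => hb _ p (right_ne_zero_of_mul h1) hp hpn)
      (fun p hp hpn => hb _ p (right_ne_zero_of_mul h2) hp hpn) h3
    exact Prod.ext e1 e2
  have hgs := gc_sq q b M X hinj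
  have m1 := mv_sq hMVB (M * X) T (2 * T) (by linarith) (gc q b M X)
  have m2 := mv_sq hMVB M T (2 * T) (by linarith) q
  rw [hgs] at m1
  obtain ⟨Sq, hSq⟩ : ∃ Sq : ℝ, Sq = ∑ n ∈ Finset.Icc 1 M, ‖q n‖ ^ 2 := ⟨_, rfl⟩
  obtain ⟨Sb, hSb⟩ : ∃ Sb : ℝ, Sb = ∑ n ∈ Finset.Icc 1 X, ‖b n‖ ^ 2 := ⟨_, rfl⟩
  rw [← hSq, ← hSb] at m1
  rw [← hSq] at m2
  have hSq0 : 0 ≤ Sq := by rw [hSq]; exact Finset.sum_nonneg fun n _ => by positivity
  have hSb0 : 0 ≤ Sb := by rw [hSb]; exact Finset.sum_nonneg fun n _ => by positivity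
  have e1 : (∫ t in T..(2 * T), V κ c A T t *
      ‖∑ n ∈ Finset.Icc 1 X, b n * (n : ℂ) ^ (-(t : ℂ) * I)‖ ^ 2) =
      ∫ t in T..(2 * T), ‖∑ m ∈ Finset.Icc 1 (M * X), gc q b M X m *
        (m : ℂ) ^ (-(t : ℂ) * I)‖ ^ 2 := by
    refine intervalIntegral.integral_congr fun t _ => ?_
    show V κ c A T t * ‖∑ n ∈ Finset.Icc 1 X, b n * (n : ℂ) ^ (-(t : ℂ) * I)‖ ^ 2 =
      ‖∑ m ∈ Finset.Icc 1 (M * X), gc q b M X m * (m : ℂ) ^ (-(t : ℂ) * I)‖ ^ 2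
    rw [← prod_eq, norm_mul, mul_pow, V, hQ]
  have e2 : IV κ c A T = ∫ t in T..(2 * T), ‖∑ n ∈ Finset.Icc 1 M, q n *
      (n : ℂ) ^ (-(t : ℂ) * I)‖ ^ 2 := by
    unfold IV
    refine intervalIntegral.integral_congr fun t _ => ?_
    show V κ c A T t = ‖∑ n ∈ Finset.Icc 1 M, q n * (n : ℂ) ^ (-(t : ℂ) * I)‖ ^ 2
    rw [V, hQ]
  rw [← hSb, e1, e2]
  have hlog : 0 ≤ Real.log T := Real.log_nonneg hT1.le
  -- sizes
  have key : ∀ n : ℕ, (n : ℝ) ≤ T ^ (1 - 3 * ε' / 4) →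
      8 * (n : ℝ) * (1 + Real.log n) ≤ 8 * (T ^ (1 - 3 * ε' / 4) * (1 + Real.log T)) := by
    intro n hn
    have hn1 : (n : ℝ) ≤ T := hn.trans (by
      conv_rhs => rw [← Real.rpow_one T]
      exact Real.rpow_le_rpow_of_exponent_le hT1.le (by linarith))
    have hl : Real.log n ≤ Real.log T := by
      rcases Nat.eq_zero_or_pos n with rfl | h0
      · simpa using hlog
      · exact Real.log_le_log (by exact_mod_cast h0) hn1
    have hl0 : 0 ≤ 1 + Real.log n := by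
      have := Real.log_natCast_nonneg n
      linarith
    have h3 : (n : ℝ) * (1 + Real.log n) ≤ T ^ (1 - 3 * ε' / 4) * (1 + Real.log T) :=
      mul_le_mul hn (by linarith) hl0 (by positivity)
    linarith
  have hMX : ((M * X : ℕ) : ℝ) ≤ T ^ (1 - 3 * ε' / 4) := by
    push_cast
    calc (M : ℝ) * X ≤ T ^ (ε' / 4) * T ^ (1 - ε) :=
          mul_le_mul hM hX (Nat.cast_nonneg _) (by positivity)
      _ = T ^ (ε' / 4 + (1 - ε)) := (Real.rpow_add hT0 _ _).symm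
      _ ≤ T ^ (1 - 3 * ε' / 4) := Real.rpow_le_rpow_of_exponent_le hT1.le (by linarith)
  have hM' : (M : ℝ) ≤ T ^ (1 - 3 * ε' / 4) :=
    hM.trans (Real.rpow_le_rpow_of_exponent_le hT1.le (by linarith))
  have k1 := key _ hMX
  have k2 := key _ hM'
  obtain ⟨R, hR⟩ : ∃ R : ℝ, R = T ^ (1 - 3 * ε' / 4) * (1 + Real.log T) := ⟨_, rfl⟩
  rw [← hR] at k1 k2 hE
  have n1 := (abs_le.1 m1).2
  have n2 := (abs_le.1 m2).1
  have hSS : 0 ≤ Sq * Sb := mul_nonneg hSq0 hSb0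
  have f1 : (∫ t in T..(2 * T), ‖∑ m ∈ Finset.Icc 1 (M * X), gc q b M X m *
        (m : ℂ) ^ (-(t : ℂ) * I)‖ ^ 2) ≤ (T + 8 * R) * (Sq * Sb) := by
    have := mul_le_mul_of_nonneg_right k1 hSS
    nlinarith
  have f2 : (T - 8 * R) * Sq ≤ ∫ t in T..(2 * T), ‖∑ n ∈ Finset.Icc 1 M, q n *
      (n : ℂ) ^ (-(t : ℂ) * I)‖ ^ 2 := by
    have := mul_le_mul_of_nonneg_right k2 hSq0
    nlinarith
  have f3 : T + 8 * R ≤ (1 + δ) * (T - 8 * R) := by nlinarith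
  calc (∫ t in T..(2 * T), ‖∑ m ∈ Finset.Icc 1 (M * X), gc q b M X m *
        (m : ℂ) ^ (-(t : ℂ) * I)‖ ^ 2) ≤ (T + 8 * R) * (Sq * Sb) := f1
    _ ≤ ((1 + δ) * (T - 8 * R)) * (Sq * Sb) := mul_le_mul_of_nonneg_right f3 hSS
    _ = (1 + δ) * ((T - 8 * R) * Sq) * Sb := by ring
    _ ≤ (1 + δ) * (∫ t in T..(2 * T), ‖∑ n ∈ Finset.Icc 1 M, q n *
      (n : ℂ) ^ (-(t : ℂ) * I)‖ ^ 2) * Sb :=
        mul_le_mul_of_nonneg_right (mul_le_mul_of_nonneg_left f2 (by linarith)) hSb0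

end

end Pool.Agent.Y447.LD
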